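import Pool.Agent.Lib_helper78.AEC.Fin

/-!
# MP_5c38ab_lc: the negated form of Q1 above every oracle, relative to oracles which are closed under
parities and multilinear extensions, with trapdoor permutations and `NP ≠ coNP`

There is a language `A` in `P` such that for every parity scheme `ext` (to every string `w` belongs a
finite set of strings that are not longer than `w`), every family `Φ` of fields of characteristic two
and every oracle `R`:

(a) There are an oracle `H`, decided by `A` with `log log n` bits of strong advice (one advice word
for all inputs of length at most `n`), and the closure `O` of `R` and `H` under the parities of `O`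
itself over the sets `ext w` and under the multilinear extensions of `O` itself over the fields of
`Φ`, such that relative to `O` base theories that contain `S^1_2` exist and for every base theory `B`
there is a theory `S` in the class in which all sentences `Σ^b_1RFN_T(n)`, `T` in the class, and all
members `φ(n)` of every true polynomially local family have proofs of polynomial length; the proofs
can be computed from `1^n` in polynomial time without oracle.  In particular the negated form of Q1,
relativized literally, holds relative to `O`.

(b) Such weak oracles `H` do no harm: for every `β(n) → ∞` there are an oracle `P`, trapdoor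
permutations and a language `L` such that relative to the closure of `P ⊕ R` and `H`, for every `H`
as in (a), the permutations are secure at all large lengths `n` against all nonuniform adversaries
with time and advice `2 ^ (n / β n)`, `L` is in `NP` and its complement is not in `NP`.  So, by (a)
for `P ⊕ R`, above every oracle there is such a world in which the negated form of Q1 holds.

The definitions are in `Lib_helper78/RF/Defs.lean` (syntax, coding, truth relative to `O`, Hilbert
proofs, `S^1_2`, theories), `Lib_helper78/ADV/Base.lean` (codes of pairs, local families, easy
proofs), `Lib_helper78/AEC/{Notions,MlDefs,Closed}.lean` (parities, multilinear extensions, closure,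
advice), `Lib_helper74/CKF/Defs.lean` (machines with oracle) and `Lib_helper64/TD/Notions.lean`
(trapdoor permutations, security).
-/

set_option autoImplicit false

namespace Pool.Agent.Results.MP_5c38ab_lc.AboveEveryOracleAffine

open Pool.Agent.CK Pool.Agent.RF Pool.Agent.ADV Pool.Agent.TD Pool.Agent.AEC

theorem result : ∃ A : Lang, InP (fun _ => false) A ∧
    ∀ (ext : List Bool → Finset (List Bool)) (Φ : Fields), Adm ext → ∀ R : Lang,
      (∃ (H : Lang) (w : ℕ → List Bool) (O : Lang), Advice A H w ∧ ClosedOver ext Φ R H O ∧
        (∃ B, Base O B ∧ ∀ σ, S12 σ → B σ) ∧
        ∀ B, Base O B → ∃ S, InT O B S ∧
          (∀ T, InT O B T → EasyProofs O S (RFN T)) ∧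
          ∀ (i : ℕ) (φ : Fm), LocalFam i φ → (∀ j, φ.free j → j = i) →
            (∀ n, (φ.sb i (num n)).True O) → EasyProofs O S (fun n => φ.sb i (num n))) ∧
      ∀ β : ℕ → ℕ, Filter.Tendsto β Filter.atTop Filter.atTop →
        ∃ (P : Lang) (G F K : List Bool → List Bool) (L : Lang),
          ∀ (H : Lang) (w : ℕ → List Bool) (O : Lang), Advice A H w →
            ClosedOver ext Φ (join P R) H O →
            TrapdoorPermutations O G F K ∧ Secure O G F (fun n => 2 ^ (n / β n)) ∧
              InNP O L ∧ ¬ InNP O (fun x => !L x) := mainAEC

end Pool.Agent.Results.MP_5c38ab_lc.AboveEveryOracleAffine
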