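import Pool.Agent.Lib_helper57.PX.AffThm
import Pool.Agent.Lib_helper57.PX.IsoC

/-!
# MP_5c38ab_lc: Q1 has no algebrizing proof, even from trapdoor permutations and `NP ≠ coNP`

Let `pt u` code a point of a space `GF(2^k)^n`, `n ≤ |u|`, and a linear functional of `GF(2^k)` over
`GF(2)` (any coding).  For every oracle `R` and every `β(n) → ∞` there is an oracle `O` that contains
its own multilinear extensions (`O (01u)` is the value of the functional at the value of the
multilinear extension of `O`, restricted to `{0,1}^n`, at the point), with `R ∈ P^O`, such that,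
relative to `O`, `NP ≠ coNP`, there are trapdoor permutations that are secure at all large lengths `n`
against all nonuniform adversaries with time and advice `2 ^ (n / β n)`, and Q1 is false (its negated
form holds): some `S` has proofs of polynomial length, computable from `1^n` in polynomial time, of
the sentences `Σ^b_1RFN_T(n)` of all `T`.

The definitions are in `Lib_helper57/PX` (`Mach`, `InP`, `InNP`, `InFP`, `Arith`, `QFalse`, `TDP`,
`Ml`).
-/

set_option autoImplicit false

namespace Pool.Agent.Results.MP_5c38ab_lc.AboveEveryOracleAffine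

open Pool.Agent.PX

theorem result
    (pt : List Bool → (n : ℕ) × (k : ℕ) × (Fin n → GaloisField 2 k) ×
      (GaloisField 2 k →ₗ[ZMod 2] ZMod 2)) (hpt : ∀ u, (pt u).1 ≤ u.length)
    (R : Lang) (β : ℕ → ℕ) (hβ : Filter.Tendsto β Filter.atTop Filter.atTop) :
    ∃ O : Lang, InP O R ∧
      (∀ u, O (false :: true :: u) = decide ((pt u).2.2.2
        (mlx (fun s : Fin (pt u).1 → Bool => O (List.ofFn s)) (pt u).2.2.1) = 1)) ∧
      Q1False O ∧ (∃ L, InNP O L ∧ ¬ InNP O (fun x => !L x)) ∧
      ∃ G F K, TrapdoorPermutations O G F K ∧ Secure O G F (fun n => 2 ^ (n / β n)) := by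
  obtain ⟨O, h1, h2, h3, ⟨L, h4, h5⟩, G, F, K, h6, h7⟩ := affOld pt hpt R β hβ
  exact ⟨O, (inP_iff O R).1 h1, h2, (q1False_iff O).1 h3,
    ⟨L, (inNP_iff O L).1 h4, fun h => h5 ((inNP_iff O _).2 h)⟩, G, F, K, (tdp_iff O G F K).1 h6,
    (secure_iff O G F _).1 h7⟩

end Pool.Agent.Results.MP_5c38ab_lc.AboveEveryOracleAffine
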