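import Pool.Agent.Lib_helper78.AIP.Main

/-!
# MP_5c38ab_lc: the negated form of Q1 above every oracle, with an infinite polynomial hierarchy and
trapdoor permutations

There is a language `A` in `P` (without oracle) such that, for the oracles `H` which are decided by
`A` with `log log n` bits of strong advice (one advice word for all inputs of length at most `n`):

(a) For every oracle `R` there is such an `H` relative to which, together with `R`, base theories that
contain `S^1_2` exist and for every base theory `B` there is a theory `S` in the class in which all
sentences `Σ^b_1RFN_T(n)`, `T` in the class, and all members `φ(n)` of every true polynomially local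
family have proofs of polynomial length; the proofs can be computed from `1^n` in polynomial time
without oracle.  In particular the negated form of Q1, relativized literally, holds relative to
`R ⊕ H`.

(b) For every oracle `R` and every `β(n) → ∞` there are an oracle `P` and trapdoor permutations such
that relative to `(P ⊕ R) ⊕ H`, for every `H` as above, the permutations are secure at all large
lengths `n` against all nonuniform adversaries with time and advice `2 ^ (n / β n)`, and the
polynomial hierarchy is infinite.  So, by (a) for `P ⊕ R`, above every oracle there is such a world
in which the negated form of Q1 holds.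

(c) Such an `H` never causes a collapse: if `Σ_{k+1} = Σ_k` relative to `R ⊕ H` then every language in
`Σ_{k+1}^R` is in `P^{Σ_k^R}`; so the polynomial hierarchy relative to `R ⊕ H` is infinite if it is
infinite relative to `R`.

Proof of (a): see `Lib_helper78/ADV`.  For (b) the oracle `P` contains random secrets and, in the
slots of a very fast growing sequence of lengths, functions on `2k + 1` blocks of `m` bits that
defeat the languages of the level `2k` (Yao, Håstad; the depth hierarchy theorem with explicit size
is `Lib_helper78/AIP/DHS.lean`).  The slots are padded by zeros to a length that adversaries of level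
`n` can only reach if `(2k + 1) m ≤ n / 8`, so that these adversaries see at most `2 ^ (n / 4)` ones;
the secrets defeat them together with all oracles with so few ones.  (c) is an argument of
Karp-Lipton type: a machine of the level `Σ_{k+1}` searches for the witnesses of all short inputs
bit by bit with an oracle in `Σ_k`, for the at most `log n` possible advice words in parallel.

The definitions are in `Lib_helper78/RF/Defs.lean` (syntax, coding, truth relative to `O`, Hilbert
proofs, `S^1_2`, theories), `Lib_helper78/ADV/Base.lean` (codes of pairs, local families, easy
proofs), `Lib_helper78/AEC/Closed.lean` (`Advice`), `Lib_helper74/CKF/Defs.lean` (machines with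
oracle), `Lib_helper74/PHS/Defs.lean` (`InSig`, the levels of the polynomial hierarchy) and
`Lib_helper64/TD/Notions.lean` (trapdoor permutations, security).
-/

set_option autoImplicit false

namespace Pool.Agent.Results.MP_5c38ab_lc.AboveEveryOracleInfinitePH

open Pool.Agent.CK Pool.Agent.RF Pool.Agent.ADV Pool.Agent.TD Pool.Agent.AEC Pool.Agent.PHS

theorem result : ∃ A : Lang, InP (fun _ => false) A ∧
    (∀ R : Lang, ∃ (H : Lang) (w : ℕ → List Bool), Advice A H w ∧
      (∃ B, Base (join R H) B ∧ ∀ σ, S12 σ → B σ) ∧
      ∀ B, Base (join R H) B → ∃ S, InT (join R H) B S ∧
        (∀ T, InT (join R H) B T → EasyProofs (join R H) S (RFN T)) ∧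
        ∀ (i : ℕ) (φ : Fm), LocalFam i φ → (∀ j, φ.free j → j = i) →
          (∀ n, (φ.sb i (num n)).True (join R H)) →
          EasyProofs (join R H) S (fun n => φ.sb i (num n))) ∧
    (∀ (R : Lang) (β : ℕ → ℕ), Filter.Tendsto β Filter.atTop Filter.atTop →
      ∃ (P : Lang) (G F K : List Bool → List Bool),
        ∀ (H : Lang) (w : ℕ → List Bool), Advice A H w →
          TrapdoorPermutations (join (join P R) H) G F K ∧
          Secure (join (join P R) H) G F (fun n => 2 ^ (n / β n)) ∧
          ∀ k, ∃ L, InSig (join (join P R) H) (k + 1) L ∧ ¬ InSig (join (join P R) H) k L) ∧
    ∀ (R H : Lang) (w : ℕ → List Bool), Advice A H w →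
      ∀ k, (∀ L, InSig (join R H) (k + 1) L → InSig (join R H) k L) →
        ∀ L, InSig R (k + 1) L → ∃ C, InSig R k C ∧ InP (join R C) L := AIP.mainAIP2

end Pool.Agent.Results.MP_5c38ab_lc.AboveEveryOracleInfinitePH
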