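import Pool.Agent.Lib_helper78.APS.Main
import Pool.Agent.Lib_helper57.AFF.F
import Pool.Agent.Lib_helper78.TA.Defs

/-!
# MP_5d94c0_lc: worlds with an almost sparse p-selective Turing complete set and few queries, in
oracles that contain their own multilinear extensions

By the theorem CloseToP of this problem, a sparse p-selective language that is `≤_T^P`-complete for
`NP` gives `P = NP`, relative to every oracle; and it is known that a p-selective language that is
`≤_T^P`-hard for `NP` with `O(log n)` adaptive queries gives `NP = RP`.  Here it is shown that
relativizing and algebrizing proofs cannot go further: let `s` be any function with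
`s n / log n → ∞`, and let `pt u` code a point of a space `GF(2^k)^n`, `n ≤ |u|`, and a linear
functional of `GF(2^k)` over `GF(2)` (any coding).  Above every oracle `R` there is an oracle `O` that
contains its own multilinear extensions (`O (01u)` is the value of the functional at the value of the
multilinear extension of `O`, restricted to `{0,1}^n`, at the point), relative to which
* a p-selective language `L` with at most `2 ^ s n` elements of length at most `n` is
  `≤_T^P`-complete for `NP`;
* all languages in `PSPACE` and in the polynomial hierarchy are decided in polynomial time with at
  most `s n` adaptive queries to `L`, and `PSPACE = UP ∩ coUP`;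
* but there are trapdoor permutations that are secure against probabilistic polynomial time with
  `O(log n)` bits of advice; in particular `P ≠ NP`;
* there is a `≤_T^P`-complete language `S` for `NP` with at most `s n ^ 2` elements of length at
  most `n` such that for all `x`, `y` one of the four possible values of `(S x, S y)` is excluded in
  polynomial time.

Construction.  Scales are `N k = 2 ^ 2 ^ k`; the password of scale `k` is the initial segment of
length `r k` of a secret sequence `ρ`, where `r k / 2 ^ k → ∞` slowly.  The oracle `O` is the closure
under multilinear extensions of a left part, which contains `R` and masked trapdoor permutations of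
exponential security, and of a right part, which at the positions of length from `N k` to
`64 * N k - 1` with the password of scale `k` confirms the password and answers universal `NP^O` and
`PSPACE^O` questions of length at most `N k / 8 - 1`; all other positions of the right part are
filled with random junk `J`.  A password is tested at `2 * r k + 3` positions, where the answer is always yes;
no other string of length `r k` passes all these tests.

Masking.  Let `N (j + 1) ≤ n < N (j + 2)`.  A question about a multilinear extension is a linear form
in the right part.  Let `v` be the `j + 1`-st block of `ρ`.  A block `v` is dangerous for linearly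
independent linear forms if some nontrivial sum of them has all its positions of maximal length in
the region of the passwords with the block `v`.  Sums that belong to different blocks are linearly
independent, so at most `t` blocks are dangerous for `t` forms.  If `v` is not dangerous then, as all
contents only depend on shorter positions, every nontrivial sum takes both values equally often when
`J` varies, so the answers are independent and uniformly distributed.  Therefore the average success
of an adversary over `v` and `J` is at most its success in an ideal process, where the answers to
linearly independent questions are coins, plus `t / 2 ^ |v|`.  The ideal process with fixed coins is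
a decision tree that only uses the left part and a table of size `2 ^ O(√n)`, and the permutations
are secure against small families of decision trees.  Counting and compactness give `ρ` and `J`.

Definitions: machines, `InP`, `InUP`, `TuringComplete` are in `Lib_helper74/CKF/Defs.lean`;
`PCL.PSelective` in `Lib_helper78/PCL/Defs.lean`; `PSL.SigmaP` in `Lib_helper61/PSL/Coll.lean`;
`FewQueriesReducible`, `SecurePPT`, `PairApproximable` in `Lib_helper78/PCW/Defs.lean`;
`TD.TrapdoorPermutations` in `Lib_helper64/TD/Notions.lean`; `TA.SelfExtended` in
`Lib_helper78/TA/Defs.lean`; `APS.InPSPACE` in `Lib_helper78/APS/Defs.lean`.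
-/

set_option autoImplicit false

namespace Pool.Agent.Results.MP_5d94c0_lc.AlmostSparseAffineWorlds

open Pool.Agent Pool.Agent.CK

theorem result
    (pt : List Bool → (n : ℕ) × (k : ℕ) × (Fin n → GaloisField 2 k) ×
      (GaloisField 2 k →ₗ[ZMod 2] ZMod 2)) (hpt : ∀ u, (pt u).1 ≤ u.length)
    (R : Lang) (s : ℕ → ℕ) (hs : ∀ b : ℕ, ∀ᶠ n in Filter.atTop, b * Nat.log 2 n ≤ s n) :
    ∃ (O L S : Lang) (G F K : List Bool → List Bool),
      InP O R ∧ TA.SelfExtended pt O ∧ TD.TrapdoorPermutations O G F K ∧ PCW.SecurePPT O G F ∧
      PCL.PSelective O L ∧ TuringComplete O L ∧ ¬ InP O L ∧
      (∀ᶠ n : ℕ in Filter.atTop,
        Nat.card {z : List Bool // z.length ≤ n ∧ L z = true} ≤ 2 ^ s n) ∧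
      (∀ D : Lang, ((∃ j : ℕ, PSL.SigmaP O j D) ∨ APS.InPSPACE O D) →
        PCW.FewQueriesReducible O D L s ∧ InUP O D ∧ InUP O fun x => !D x) ∧
      PCW.PairApproximable O S ∧ TuringComplete O S ∧
      (∀ᶠ n : ℕ in Filter.atTop,
        Nat.card {z : List Bool // z.length ≤ n ∧ S z = true} ≤ s n ^ 2) := by
  obtain ⟨ext, hext, hpar⟩ := AFF.exists_mlx pt hpt
  obtain ⟨Y, H, O, L, S, G, F, K, hclo, h⟩ := APS.main5 (ext := ext) hext R s hs
  refine ⟨O, L, S, G, F, K, h.1, fun u => ?_, h.2⟩
  rw [hclo.mid]
  exact hpar O u

end Pool.Agent.Results.MP_5d94c0_lc.AlmostSparseAffineWorlds
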