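import Pool.Agent.Lib_helper78.PCW.K

/-!
# MP_5d94c0_lc: worlds with an almost sparse p-selective Turing complete set and few queries

By the theorem CloseToP of this problem, a sparse p-selective language that is `≤_T^P`-complete for
`NP` gives `P = NP`, relative to every oracle; and it is known that a p-selective language that is
`≤_T^P`-hard for `NP` with `O(log n)` adaptive queries gives `NP = RP`.  Here it is shown that
relativizing proofs cannot go further: let `s` be any function with `s n / log n → ∞`.  Above every
oracle `R` there is an oracle `O` relative to which
* a p-selective language `L` with at most `2 ^ s n` elements of length at most `n` is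
  `≤_T^P`-complete for `NP`;
* all languages of the polynomial hierarchy are decided in polynomial time with at most `s n`
  adaptive queries to `L`, and `PH = UP ∩ coUP`;
* but there are trapdoor permutations that are secure against probabilistic polynomial time with
  `O(log n)` bits of advice; in particular `P ≠ NP`;
* there is a `≤_T^P`-complete language `S` for `NP` with at most `s n ^ 2` elements of length at
  most `n` such that for all `x`, `y` one of the four possible values of `(S x, S y)` is excluded in
  polynomial time.  (For p-selective languages, one of the two values `(0, 1)` and `(1, 0)` is
  excluded.)  So p-selectivity cannot be replaced with this weaker property in CloseToP.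

Construction.  `O` contains `R`, trapdoor permutations of exponential security, and a secret
sequence `ρ`.  Scales are `N k = 2 ^ 2 ^ k`.  The password of scale `k` is the initial segment of `ρ`
of length `r k`, where `r k / 2 ^ k → ∞` so slowly that `r k ≤ s n` if `N k` is polynomial in `n`.
`O` confirms the password of scale `k` in strings of length at least `N k`, and to whoever knows it,
`O` answers universal `NP^O` questions of length at most `N k / 8 - 1`.  `L` consists of the codes of
pairs `(1 ^ N k, u)` such that `u` has length `r k` and is at most `ρ` in the dictionary order, and
`S` of the codes of pairs `(1 ^ N k, u)` such that `u` is a beginning of the password.  So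
`L` is p-selective, and in `NP^O` (guess the password).  The password is found bit by bit, with
`r k` queries; it decides `L` up to the length `N k`, and `NP^O` questions, and is a unique witness
for everything in `P^L`.  Security: let `N (j + 1) ≤ n < N (j + 2)`.  As long as the password of
scale `j + 1` has not been asked, all answers are given by a table of size `2 ^ O(√n)`, so an
adversary is defeated by the base permutations.  The `j + 1`-st block of the sequence is chosen such
that the programs with index at most `b j → ∞` ask for the password with probability at most
`1 / n ^ (e + 1)` (union bound).

Definitions: machines, `InP`, `InUP`, `TuringComplete` are in `Lib_helper74/CKF/Defs.lean`;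
`PCL.PSelective` in `Lib_helper78/PCL/Defs.lean`; `PSL.SigmaP` in `Lib_helper61/PSL/Coll.lean`;
`FewQueriesReducible`, `SecurePPT`, `PairApproximable` in `Lib_helper78/PCW/Defs.lean`;
`TD.TrapdoorPermutations` in `Lib_helper64/TD/Notions.lean`.
-/

set_option autoImplicit false

namespace Pool.Agent.Results.MP_5d94c0_lc.AlmostSparseWorlds

open Pool.Agent Pool.Agent.CK

theorem result (R : Lang) (s : ℕ → ℕ)
    (hs : ∀ b : ℕ, ∀ᶠ n in Filter.atTop, b * Nat.log 2 n ≤ s n) :
    ∃ (O L S : Lang) (G F K : List Bool → List Bool),
      InP O R ∧ TD.TrapdoorPermutations O G F K ∧ PCW.SecurePPT O G F ∧
      PCL.PSelective O L ∧ TuringComplete O L ∧ ¬ InP O L ∧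
      (∀ᶠ n : ℕ in Filter.atTop,
        Nat.card {z : List Bool // z.length ≤ n ∧ L z = true} ≤ 2 ^ s n) ∧
      (∀ (j : ℕ) (D : Lang), PSL.SigmaP O j D →
        PCW.FewQueriesReducible O D L s ∧ InUP O D ∧ InUP O fun x => !D x) ∧
      PCW.PairApproximable O S ∧ TuringComplete O S ∧
      (∀ᶠ n : ℕ in Filter.atTop,
        Nat.card {z : List Bool // z.length ≤ n ∧ S z = true} ≤ s n ^ 2) :=
  PCW.main R s hs

end Pool.Agent.Results.MP_5d94c0_lc.AlmostSparseWorlds
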