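import Pool.Agent.Lib_helper78.RO.Final

/-!
# MP_5c38ab_lc: Q1 relative to a random oracle

Let `ν x` (`x` a bit string) be probability measures on `{0, 1}` such that `ν x {1} = 1/2` for all
strings `x` that begin with `1`; for example the uniform measures (a random oracle), or, for a given
oracle `A`, the oracle `{0 x : x ∈ A} ∪ {1 x : x ∈ R}` with `R` random.  For almost every oracle
`O`, Q1 (relativized literally) is true, and finite consistency statements are hard as well: for
every base theory `B` and every consistent theory `S` that extends `B` and is decidable in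
polynomial time with oracle `O` there is such a theory `T` for which neither the sentences
`Σ^b_1RFN_T(n)` nor the sentences `Con_T(n)` have `S`-proofs of polynomial length.  For infinitely
many `n` all `S`-proofs of `Σ^b_1RFN_T(n)` and of `Con_T(n)` have length greater than
`2 ^ (n ^ (1/7) - 1)`.  Base theories that contain `S^1_2` exist relative to every oracle.

The definitions are in `Lib_helper78/RF/Defs.lean` (syntax, coding, truth relative to `O`, Hilbert
proofs, `S^1_2`, theories), `Lib_helper78/RO/Base.lean` (base theories) and
`Lib_helper74/CKF/Defs.lean` (machines with oracle).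
-/

set_option autoImplicit false

namespace Pool.Agent.Results.MP_5c38ab_lc.RandomOracle

open Pool.Agent.CK Pool.Agent.RF Pool.Agent.RO MeasureTheory

theorem result (ν : List Bool → Measure Bool) [∀ x, IsProbabilityMeasure (ν x)]
    (hν : ∀ w : List Bool, ν (true :: w) {true} = 2⁻¹) :
    ∀ᵐ O ∂(Measure.infinitePi ν), (∃ B, BaseD O B ∧ ∀ σ, S12 σ → B σ) ∧
      ∀ B, BaseD O B → ∀ S, InT O B S → ∃ T, InT O B T ∧
        ¬ PolyBounded O S (RFN T) ∧ ¬ PolyBounded O S (Con T) ∧
        ∀ m, ∃ n, m ≤ n ∧ ∀ l : List Fm,
          (IsProof (Ax O S) (l ++ [RFN T n]) →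
            n < (Nat.size (pEnc (l ++ [RFN T n])).length) ^ 7) ∧
          (IsProof (Ax O S) (l ++ [Con T n]) →
            n < (Nat.size (pEnc (l ++ [Con T n])).length) ^ 7) :=
  random_oracle ν hν

end Pool.Agent.Results.MP_5c38ab_lc.RandomOracle
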