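import Pool.Agent.Lib_helper78.RF.F.FNA

/-!
# MP_5c38ab_lc: a world with `NP ≠ coNP` in which the negated form of Q1 holds

There is an oracle `O` with `NP^O ≠ coNP^O` relative to which the negated form of Q1 is true: for
every base theory `B` (there are base theories that contain `S^1_2`) one consistent theory `S`,
decidable in polynomial time with oracle `O` and extending `B`, proves the sentences
`Σ^b_1RFN_T(n)` by proofs of polynomial length, for every consistent theory `T` that extends `B` and
is decidable in polynomial time with oracle `O`.

The definitions are in `Lib_helper78/RF/Defs.lean` (syntax, coding, truth relative to `O`, Hilbert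
proofs, `S^1_2`, theories) and `Lib_helper74/CKF/Defs.lean` (machines with oracle, `NP^O`).
-/

set_option autoImplicit false

namespace Pool.Agent.Results.MP_5c38ab_lc.ReflectionBelowNP

open Pool.Agent.CK Pool.Agent.RF

theorem result : ∃ O : Lang, (∃ L, InNP O L ∧ ¬ InNP O (fun x => !L x)) ∧
    (∃ B, Base O B ∧ ∀ σ, S12 σ → B σ) ∧
    ∀ B, Base O B → ∃ S, InT O B S ∧ ∀ T, InT O B T → PolyBounded O S (RFN T) :=
  finalA

end Pool.Agent.Results.MP_5c38ab_lc.ReflectionBelowNP
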