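import Pool.Agent.Lib_helper78.RF.F.FNB

/-!
# MP_5c38ab_lc: a world in which Q1 holds although finite consistency has short proofs

There is an oracle `O` relative to which Q1 is true: for every base theory `B` and every `S` in
the class of the consistent theories extending `B` and decidable in polynomial time with oracle
`O` there is `T` in this class such that the shortest `S`-proofs of `Σ^b_1RFN_T(n)` are not
polynomially bounded; but the hypothesis of the only known implication towards Q1 is false: some `S`
in the class has proofs of polynomial length of `Con_T(n)`, for all `T` in the class.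

The definitions are in `Lib_helper78/RF/Defs.lean` (syntax, coding, truth relative to `O`, Hilbert
proofs, `S^1_2`, theories) and `Lib_helper74/CKF/Defs.lean` (machines with oracle).
-/

set_option autoImplicit false

namespace Pool.Agent.Results.MP_5c38ab_lc.ReflectionNotConsistency

open Pool.Agent.CK Pool.Agent.RF

theorem result : ∃ O : Lang, (∃ B, Base O B ∧ ∀ σ, S12 σ → B σ) ∧ ∀ B, Base O B →
    (∃ S, InT O B S ∧ ∀ T, InT O B T → PolyBounded O S (Con T)) ∧
    ∀ S, InT O B S → ∃ T, InT O B T ∧ ¬ PolyBounded O S (RFN T) :=
  finalB

end Pool.Agent.Results.MP_5c38ab_lc.ReflectionNotConsistency
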