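import Pool.Agent.Lib_helper6.PHR.FinalB

/-!
# MP_5c38ab_lc: a world with an infinite polynomial hierarchy in which Q1 holds although finite
consistency has short proofs

There is an oracle `O` relative to which the polynomial hierarchy is infinite and Q1 is true: for
every base theory `B` and every `S` in the class of the consistent theories extending `B` and
decidable in polynomial time with oracle `O` there is `T` in this class such that the shortest
`S`-proofs of `Σ^b_1RFN_T(n)` are not polynomially bounded; but the hypothesis of the only known
implication towards Q1 is false: some `S` in the class has proofs of polynomial length of `Con_T(n)`,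
for all `T` in the class.

The definitions are in `Lib_helper78/RF/Defs.lean` (syntax, coding, truth relative to `O`, Hilbert
proofs, `S^1_2`, theories), `Lib_helper74/CKF/Defs.lean` (machines with oracle, `P^O`, `NP^O`) and
`Lib_helper74/PHS/Defs.lean` (the levels of the polynomial hierarchy relative to `O`).
-/

set_option autoImplicit false

namespace Pool.Agent.Results.MP_5c38ab_lc.ReflectionNotConsistencyPH

open Pool.Agent.CK Pool.Agent.PHS Pool.Agent.RF

theorem result : ∃ O : Lang, (∀ k, ∃ L, InSig O (k + 1) L ∧ ¬ InSig O k L) ∧
    (∃ B, Base O B ∧ ∀ σ, S12 σ → B σ) ∧ ∀ B, Base O B →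
    (∃ S, InT O B S ∧ ∀ T, InT O B T → PolyBounded O S (Con T)) ∧
    ∀ S, InT O B S → ∃ T, InT O B T ∧ ¬ PolyBounded O S (RFN T) :=
  Pool.Agent.PHR.finalBP

end Pool.Agent.Results.MP_5c38ab_lc.ReflectionNotConsistencyPH
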