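import Pool.Agent.Lib_helper78.TA.Three
import Pool.Agent.Lib_helper78.TA.Defs
import Pool.Agent.Lib_helper57.PX.IsoC

/-!
# MP_5c38ab_lc: each case for Q1 and its consistency version occurs above every oracle in oracles
that contain their own multilinear extensions

Let CON be the statement that for every `S` in the class there is `T` in the class such that the
`S`-proofs of the sentences `Con_T(n)` are not polynomially bounded, and Q1 the same statement with
`Σ^b_1RFN_T(n)`.  CON implies Q1 and Q1 implies `NP ≠ coNP`, so that there are three cases.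

Let `pt u` code a point of a space `GF(2^k)^n`, `n ≤ |u|`, and a linear functional of `GF(2^k)` over
`GF(2)` (any coding).  For every oracle `R` and every `β(n) → ∞` there are three oracles `O` that
contain their own multilinear extensions (`O (01u)` is the value of the functional at the value of
the multilinear extension of `O`, restricted to `{0,1}^n`, at the point), with `R ∈ P^O`, such that,
relative to `O`,

* Q1 is false (so CON is false): some `S` has proofs of polynomial length, computable in polynomial
  time, of the sentences `Σ^b_1RFN_T(n)` of all `T`; although `NP ≠ coNP` and there are trapdoor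
  permutations that are secure at all large lengths `n` against all nonuniform adversaries with time
  and advice `2 ^ (n / β n)`;
* Q1 and CON are true, with exponential lower bounds;
* Q1 is true and CON is false.

The definitions are in `Lib_helper57/PX` (`Mach`, `InP`, `InNP`, `InFP`, `Arith`, `QFalse`, `QCon`,
`QExp`, `TDP`, `Ml`) and `Lib_helper78/TA/Defs.lean` (`SelfExtended`).
-/

set_option autoImplicit false

namespace Pool.Agent.Results.MP_5c38ab_lc.ThreeCasesAffine

open Pool.Agent.PX Pool.Agent.TA

theorem result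
    (pt : List Bool → (n : ℕ) × (k : ℕ) × (Fin n → GaloisField 2 k) ×
      (GaloisField 2 k →ₗ[ZMod 2] ZMod 2)) (hpt : ∀ u, (pt u).1 ≤ u.length)
    (R : Lang) (β : ℕ → ℕ) (hβ : Filter.Tendsto β Filter.atTop Filter.atTop) :
    (∃ O : Lang, InP O R ∧ SelfExtended pt O ∧ Q1False O ∧
      (∃ L, InNP O L ∧ ¬ InNP O (fun x => !L x)) ∧
      ∃ G F K, TrapdoorPermutations O G F K ∧ Secure O G F (fun n => 2 ^ (n / β n))) ∧
    (∃ O : Lang, InP O R ∧ SelfExtended pt O ∧ BothTrueExp O) ∧
    ∃ O : Lang, InP O R ∧ SelfExtended pt O ∧ Q1True O ∧ ConFalse O := by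
  obtain ⟨O, h1, h2, h3, ⟨L, h4, h5⟩, G, F, K, h6, h7⟩ := affOld pt hpt R β hβ
  obtain ⟨⟨O', ⟨a1, a2⟩, a3⟩, O'', ⟨b1, b2⟩, b3, b4⟩ := three pt hpt R
  exact ⟨⟨O, (inP_iff O R).1 h1, h2, (q1False_iff O).1 h3,
    ⟨L, (inNP_iff O L).1 h4, fun h => h5 ((inNP_iff O _).2 h)⟩, G, F, K, (tdp_iff O G F K).1 h6,
    (secure_iff O G F _).1 h7⟩, ⟨O', (inP_iff O' R).1 a1, a2, (bothTrueExp_iff O').1 a3⟩,
    O'', (inP_iff O'' R).1 b1, b2, (q1True_iff O'').1 b3, (conFalse_iff O'').1 b4⟩

end Pool.Agent.Results.MP_5c38ab_lc.ThreeCasesAffine
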