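import Pool.Agent.Lib_helper78.PLS.Three
import Pool.Agent.Lib_helper57.PX.IsoC

/-!
# MP_5c38ab_lc: above every oracle, each possible case for Q1 and its consistency version occurs

Let CON be the statement that for every `S` in the class there is `T` in the class such that the
`S`-proofs of the sentences `Con_T(n)` are not polynomially bounded, and Q1 the same statement with
`Σ^b_1RFN_T(n)`.  CON implies Q1, so that there are three cases.

For every oracle `R` and every function `α` with limit infinity there are three sets `W`, each with at
most `α n` elements of length at most `n`, for all `n`, such that relative to `R ⊕ W`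

* Q1 is false (so CON is false): some `S` has proofs of polynomial length, computable in polynomial
  time, of the sentences `Σ^b_1RFN_T(n)` of all `T`;
* Q1 and CON are true, with exponential lower bounds;
* Q1 is true and CON is false.

If the polynomial hierarchy is infinite relative to `R` then it is infinite relative to each `R ⊕ W`.

The definitions are in `Lib_helper57/PX` (`Mach`, `InP`, `InNP`, `InFP`, `Join`, `Arith`, `QFalse`,
`QCon`, `QExp`, `PH`, `Few`).
-/

set_option autoImplicit false

namespace Pool.Agent.Results.MP_5c38ab_lc.ThreeCasesByFewStrings

open Pool.Agent.PX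

theorem result (R : Lang) (α : ℕ → ℕ) (hα : Filter.Tendsto α Filter.atTop Filter.atTop) :
    (∃ W, Few α W ∧ (InfinitePH R → InfinitePH (join R W)) ∧ Q1False (join R W)) ∧
    (∃ W, Few α W ∧ (InfinitePH R → InfinitePH (join R W)) ∧ BothTrueExp (join R W)) ∧
    ∃ W, Few α W ∧ (InfinitePH R → InfinitePH (join R W)) ∧
      Q1True (join R W) ∧ ConFalse (join R W) := by
  have h := Pool.Agent.PLS.three R α hα
  simpa only [few_iff, infinitePH_iff, q1False_iff, bothTrueExp_iff, q1True_iff, conFalse_iff,
    join_eq] using h

end Pool.Agent.Results.MP_5c38ab_lc.ThreeCasesByFewStrings
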