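import Pool.Agent.Lib_helper78.FS.False
import Pool.Agent.Lib_helper78.TC.Main
import Pool.Agent.Lib_helper78.SP.Tri

/-!
# MP_5c38ab_lc: above every oracle a few strings realize each of the three cases

Let `CON` be the statement that for every base theory `B` and every theory `S` of the class there
is a theory `T` of the class such that the `S`-proofs of the sentences `Con_T(n)` are not
polynomially bounded, and `Q1` the same statement with `Σ^b_1RFN_T(n)`.  `CON` implies `Q1`, so
that there are three cases: both are false, `Q1` is true and `CON` is false, both are true.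

For every oracle `R` and every function `α` with limit infinity there are three sets, each with at
most `α n` elements of length at most `n`, for all `n`, such that the three cases (relativized
literally) hold relative to `R ⊕ W`:

* Both are false: `W` consists of strings `0^(2^j)` only (it is a tally set).  Relative to `R ⊕ W`
  every base theory `B` has a consistent extension `S`, decidable in polynomial time, with proofs
  of polynomial length, computable in polynomial time without oracle, of the sentences
  `Σ^b_1RFN_T(n)` of all such theories `T`.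
* Both are true: for every base theory `B` and every such `S` there is such a `T` for which neither
  the sentences `Σ^b_1RFN_T(n)` nor the sentences `Con_T(n)` have `S`-proofs of polynomial length;
  for infinitely many `n` all `S`-proofs of `Σ^b_1RFN_T(n)` and of `Con_T(n)` have length greater
  than `2 ^ (n ^ (1/7) - 1)`.
* `Q1` is true and `CON` is false: for every base theory `B` some such `S` has proofs of polynomial
  length, computable in polynomial time without oracle, of the sentences `Con_T(n)` of all such
  theories `T`, but for every `S` there is a `T` such that the sentences `Σ^b_1RFN_T(n)` do not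
  have `S`-proofs of polynomial length.

Base theories that contain `S^1_2` exist relative to every oracle.

None of the three sets causes a collapse of the polynomial hierarchy: if `Σ_{k+1} = Σ_k` relative to
`R ⊕ W` then `Σ_{k+4} = Σ_{k+3}` relative to `R`.  So, above every oracle with infinite polynomial
hierarchy, each of the three cases holds relative to an oracle with infinite polynomial hierarchy.

The definitions are in `Lib_helper78/RF/Defs.lean` (syntax, coding, truth relative to `O`, Hilbert
proofs, `S^1_2`, theories), `Lib_helper78/RO/Base.lean` (base theories `BaseD`),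
`Lib_helper78/ADV/Base.lean` (`EasyProofs`), `Lib_helper78/FS/True.lean` (`Few`),
`Lib_helper78/SP/Tri.lean` (`NoCollapse`), `Lib_helper74/PHS/Defs.lean` (`InSig`, the levels of the
polynomial hierarchy) and `Lib_helper74/CKF/Defs.lean` (machines with oracle, `join`).
-/

set_option autoImplicit false

namespace Pool.Agent.Results.MP_5c38ab_lc.ThreeCasesByFewStrings

open Pool.Agent.CK Pool.Agent.RF Pool.Agent.RO Pool.Agent.ADV Pool.Agent.FS Filter
open Pool.Agent.SP (NoCollapse few_min)

theorem result (R : Lang) (α : ℕ → ℕ) (hα : Tendsto α atTop atTop) :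
    (∃ W : Lang, Few α W ∧ NoCollapse R W ∧
      (∀ x, W x = true → ∃ j, x = List.replicate (2 ^ j) false) ∧
      (∃ B, BaseD (join R W) B ∧ ∀ σ, S12 σ → B σ) ∧
      ∀ B, Base (join R W) B → ∃ S, InT (join R W) B S ∧
        ∀ T, InT (join R W) B T → EasyProofs (join R W) S (RFN T)) ∧
    (∃ W : Lang, Few α W ∧ NoCollapse R W ∧
      (∃ B, BaseD (join R W) B ∧ ∀ σ, S12 σ → B σ) ∧
      ∀ B, BaseD (join R W) B → ∀ S, InT (join R W) B S → ∃ T, InT (join R W) B T ∧
        ¬ PolyBounded (join R W) S (RFN T) ∧ ¬ PolyBounded (join R W) S (Con T) ∧
        ∀ m, ∃ n, m ≤ n ∧ ∀ l : List Fm,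
          (IsProof (Ax (join R W) S) (l ++ [RFN T n]) →
            n < (Nat.size (pEnc (l ++ [RFN T n])).length) ^ 7) ∧
          (IsProof (Ax (join R W) S) (l ++ [Con T n]) →
            n < (Nat.size (pEnc (l ++ [Con T n])).length) ^ 7)) ∧
    ∃ W : Lang, Few α W ∧ NoCollapse R W ∧
      (∃ B, BaseD (join R W) B ∧ ∀ σ, S12 σ → B σ) ∧
      ∀ B, Base (join R W) B →
        (∃ S, InT (join R W) B S ∧
          ∀ T, InT (join R W) B T → EasyProofs (join R W) S (Con T)) ∧
        ∀ S, InT (join R W) B S → ∃ T, InT (join R W) B T ∧
          ¬ PolyBounded (join R W) S (RFN T) := by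
  obtain ⟨β, hβ, h1, h2⟩ := few_min hα
  refine ⟨?_, ?_, ?_⟩
  · obtain ⟨W, g1, g2, g3, g4⟩ := few_false R hβ
    exact ⟨W, h1 W g1, h2 R W g1, g2, g3, fun B hB => by
      obtain ⟨S, hS, h5, -⟩ := g4 B hB
      exact ⟨S, hS, h5⟩⟩
  · obtain ⟨W, g1, g2⟩ := few_true R hβ
    exact ⟨W, h1 W g1, h2 R W g1, g2⟩
  · obtain ⟨W, g1, g2⟩ := Pool.Agent.TC.few_mixed R hβ
    exact ⟨W, h1 W g1, h2 R W g1, g2⟩

end Pool.Agent.Results.MP_5c38ab_lc.ThreeCasesByFewStrings
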