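import Pool.Agent.Lib_helper78.AT.Fin

/-!
# MP_5c38ab_lc: the three cases above every oracle, in oracles which are closed under parities and
multilinear extensions

Let `CON` be the statement that for every base theory `B` and every theory `S` of the class there
is a theory `T` of the class such that the `S`-proofs of the sentences `Con_T(n)` are not
polynomially bounded, and `Q1` the same statement with `Σ^b_1RFN_T(n)`.  `CON` implies `Q1`, so
that there are three cases: both are false, `Q1` is true and `CON` is false, both are true.

Let `ext` be a parity scheme (to every string `w` belongs a finite set of strings that are not longer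
than `w`) and `Φ` a family of finite fields of characteristic two.  For oracles `R` and `W` let
`cl(R, W)` be the closure of `R` and `W` under the parities of the oracle itself over the sets
`ext w` and under the multilinear extensions of the oracle itself over the fields of `Φ`
(`ClosedOver`).  For every oracle `R` there are `W` such that the three cases (relativized
literally) hold relative to `cl(R, W)`:

* Both are false: for every function `α` with limit infinity there is such a `W` which consists of
  strings `0^(2^j)` only and has at most `α n` elements of length at most `n`, for all `n`.
  Relative to the closure every base theory `B` has a consistent extension `S`, decidable in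
  polynomial time, with proofs of polynomial length, computable in polynomial time without oracle,
  of the sentences `Σ^b_1RFN_T(n)` of all such theories `T`.
* Both are true: for every base theory `B` and every such `S` there is such a `T` for which neither
  the sentences `Σ^b_1RFN_T(n)` nor the sentences `Con_T(n)` have `S`-proofs of polynomial length;
  for infinitely many `n` all `S`-proofs of `Σ^b_1RFN_T(n)` and of `Con_T(n)` have length greater
  than `2 ^ (n ^ (1/7) - 1)`.
* `Q1` is true and `CON` is false: for every base theory `B` some such `S` has proofs of polynomial
  length, computable in polynomial time without oracle, of the sentences `Con_T(n)` of all such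
  theories `T`, but for every `S` there is a `T` such that the sentences `Σ^b_1RFN_T(n)` do not
  have `S`-proofs of polynomial length.

Base theories that contain `S^1_2` exist relative to every oracle.

Proof: the oracle changes by an affine map if a finite set is added to `W`, so that among more than
`q` candidate strings there is a nonempty set whose addition is not seen by `q` given questions
(`AT/Clo.lean`).  The theory `T` against which a short `S`-proof is a witness gets a false axiom in
this way (`AT/Grow.lean`).  In the third case the theory `S` reads off from tally marks in `W` which
families of consistency statements are true; marks are only set if a family of lower level has become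
false, and the potential of the marks (a number with the digits `dead`) strictly grows whenever a
change of the oracle would be seen, so that after finitely many steps either the short proof
disappears or the theory `T` is refuted by an instance without witness (`AT/Stage.lean`).

The definitions are in `Lib_helper78/RF/Defs.lean` (syntax, coding, truth relative to `O`, Hilbert
proofs, `S^1_2`, theories), `Lib_helper78/RO/Base.lean` (base theories `BaseD`),
`Lib_helper78/ADV/Base.lean` (`EasyProofs`), `Lib_helper78/FS/True.lean` (`Few`),
`Lib_helper78/AEC/{Notions,MlDefs,Closed}.lean` (parities, multilinear extensions, closure) and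
`Lib_helper74/CKF/Defs.lean` (machines with oracle).
-/

set_option autoImplicit false

namespace Pool.Agent.Results.MP_5c38ab_lc.ThreeCasesClosed

open Pool.Agent.CK Pool.Agent.RF Pool.Agent.RO Pool.Agent.ADV Pool.Agent.AEC Filter
open Pool.Agent.FS (Few)

theorem result (ext : List Bool → Finset (List Bool)) (Φ : Fields) (hext : Adm ext) (R : Lang) :
    (∀ α : ℕ → ℕ, Tendsto α atTop atTop → ∃ W O : Lang, ClosedOver ext Φ R W O ∧ Few α W ∧
      (∀ x, W x = true → ∃ j, x = List.replicate (2 ^ j) false) ∧
      (∃ B, BaseD O B ∧ ∀ σ, S12 σ → B σ) ∧
      ∀ B, Base O B → ∃ S, InT O B S ∧ ∀ T, InT O B T → EasyProofs O S (RFN T)) ∧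
    (∃ W O : Lang, ClosedOver ext Φ R W O ∧
      (∃ B, BaseD O B ∧ ∀ σ, S12 σ → B σ) ∧
      ∀ B, BaseD O B → ∀ S, InT O B S → ∃ T, InT O B T ∧
        ¬ PolyBounded O S (RFN T) ∧ ¬ PolyBounded O S (Con T) ∧
        ∀ m, ∃ n, m ≤ n ∧ ∀ l : List Fm,
          (IsProof (Ax O S) (l ++ [RFN T n]) →
            n < (Nat.size (pEnc (l ++ [RFN T n])).length) ^ 7) ∧
          (IsProof (Ax O S) (l ++ [Con T n]) →
            n < (Nat.size (pEnc (l ++ [Con T n])).length) ^ 7)) ∧
    ∃ W O : Lang, ClosedOver ext Φ R W O ∧
      (∃ B, BaseD O B ∧ ∀ σ, S12 σ → B σ) ∧
      ∀ B, Base O B →
        (∃ S, InT O B S ∧ ∀ T, InT O B T → EasyProofs O S (Con T)) ∧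
        ∀ S, InT O B S → ∃ T, InT O B T ∧ ¬ PolyBounded O S (RFN T) :=
  ⟨fun α hα => by
    obtain ⟨W, O, h1, h2, h3, h4, h5⟩ := (Pool.Agent.AT.mainAT ext Φ hext R).1 α hα
    exact ⟨W, O, h1, h2, h3, h4, fun B hB => by
      obtain ⟨S, hS, h6, -⟩ := h5 B hB
      exact ⟨S, hS, h6⟩⟩, (Pool.Agent.AT.mainAT ext Φ hext R).2⟩

end Pool.Agent.Results.MP_5c38ab_lc.ThreeCasesClosed
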